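import Pool.Agent.Helper82.PN.St

/-!
# Project PN, module FNA: from the weighted sum to `P_3`

Model: Pool/Agent/Helper25/KS/M_FN5.lean.
-/

set_option autoImplicit false

noncomputable section

namespace Pool.Agent.Helper55.PN

open Finset Filter Topology
open Pool.Agent.Helper82.PN
open Pool.Agent.Helper15.AB (StDB StMT)
open Pool.Agent.Helper9.TW (gm Qs fm StMER StC9)
open Pool.Agent.Helper18.TR (StLevel StBonf StFLmain)
open Pool.Agent.Helper93.KS (bq Pq SW bmq idq ejq mg Gb Vq AD UQ LQ HU HL FSx StBXQ StT1 StCEL StBMQ)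
open Pool.Agent.Helper60.GP (StM2)
open Pool.Agent.Helper30.EL (cs StT1E StSWB)

private theorem box_FNA {a p j0 : ℕ} {ω : ℝ} : ∀ k : ℕ, j0 ≤ k →
    (a : ℝ) ^ ((j0 : ℝ) * ω) ≤ (p : ℝ) → (p : ℝ) < (a : ℝ) ^ ((k : ℝ) * ω) →
    ∃ i, j0 ≤ i ∧ i < k ∧ (a : ℝ) ^ ((i : ℝ) * ω) ≤ (p : ℝ) ∧
      (p : ℝ) < (a : ℝ) ^ (((i : ℝ) + 1) * ω) := by
  intro k hk h0
  induction k, hk using Nat.le_induction with
  | base => intro h; exact absurd h (not_lt.2 h0)
  | succ k hk ih =>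
    intro h
    by_cases h1 : (p : ℝ) < (a : ℝ) ^ ((k : ℝ) * ω)
    · obtain ⟨i, h2, h3, h4⟩ := ih h1
      exact ⟨i, h2, by omega, h4⟩
    · refine ⟨k, hk, by omega, not_lt.1 h1, ?_⟩
      push_cast at h
      exact h

private theorem ev_log {c : ℝ} (hc : 0 < c) :
    ∀ᶠ a : ℕ in atTop, Real.log a ^ 3 ≤ c * (a : ℝ) ^ (5 / 1000 : ℝ) := by
  have hcast : Tendsto (fun a : ℕ => (a : ℝ)) atTop atTop := tendsto_natCast_atTop_atTop
  have h2 : ∀ᶠ x : ℝ in atTop, ‖Real.log x ^ (3 : ℝ)‖ ≤ c * ‖x ^ (5 / 1000 : ℝ)‖ :=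
    (isLittleO_log_rpow_rpow_atTop (3 : ℝ) (by norm_num : (0 : ℝ) < 5 / 1000)).bound hc
  filter_upwards [eventually_ge_atTop 1, hcast.eventually h2] with a e1 e2
  have ha : (1 : ℝ) ≤ a := by exact_mod_cast e1
  have hl : 0 ≤ Real.log a := Real.log_nonneg ha
  have e5 : Real.log (a : ℝ) ^ (3 : ℝ) = Real.log a ^ 3 := by
    rw [← Real.rpow_natCast]
    norm_num
  rw [e5, Real.norm_of_nonneg (by positivity), Real.norm_of_nonneg (by positivity)] at e2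
  exact e2

private theorem ev_pow : ∀ᶠ a : ℕ in atTop, (2 : ℝ) ^ (5 / 2 : ℝ) ≤ (a : ℝ) ^ (1 / 1000 : ℝ) :=
  ((tendsto_rpow_atTop (by norm_num : (0 : ℝ) < 1 / 1000)).comp
    tendsto_natCast_atTop_atTop).eventually_ge_atTop _

private theorem ev_floor (A : ℕ) : ∀ᶠ n : ℕ in atTop, A ≤ ⌊(n : ℝ) ^ (4 / 5 : ℝ)⌋₊ := by
  have h : Tendsto (fun n : ℕ => (n : ℝ) ^ (4 / 5 : ℝ)) atTop atTop :=
    (tendsto_rpow_atTop (by norm_num : (0 : ℝ) < 4 / 5)).comp tendsto_natCast_atTop_atTop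
  filter_upwards [h.eventually_ge_atTop (A : ℝ)] with n hn
  exact Nat.le_floor hn

/-- the sizes of `a` and `n` -/
private theorem sizes {a n : ℕ} (hn : 1 ≤ n) (ha : 4 ≤ a) (hfl : a = ⌊(n : ℝ) ^ (4 / 5 : ℝ)⌋₊)
    (hp : (2 : ℝ) ^ (5 / 2 : ℝ) ≤ (a : ℝ) ^ (1 / 1000 : ℝ)) :
    a ≤ n ∧ n ≤ a ^ 2 ∧ (n : ℝ) ^ 2 ≤ (a : ℝ) ^ (2501 / 1000 : ℝ) ∧
      (n : ℝ) ^ (4 / 5 : ℝ) ≤ 2 * a := by
  have hn1 : (1 : ℝ) ≤ n := by exact_mod_cast hn
  have hn0 : (0 : ℝ) ≤ n := by linarith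
  have ha4 : (4 : ℝ) ≤ a := by exact_mod_cast ha
  have ha0 : (0 : ℝ) < a := by linarith
  have hx0 : 0 ≤ (n : ℝ) ^ (4 / 5 : ℝ) := by positivity
  have h1 : (a : ℝ) ≤ (n : ℝ) ^ (4 / 5 : ℝ) := by
    rw [hfl]
    exact Nat.floor_le hx0
  have h2 : (n : ℝ) ^ (4 / 5 : ℝ) < (a : ℝ) + 1 := by
    rw [hfl]
    exact Nat.lt_floor_add_one _
  have h3 : (n : ℝ) ^ (4 / 5 : ℝ) ≤ 2 * a := by linarith
  have h4 : (n : ℝ) ^ (4 / 5 : ℝ) ≤ n := by
    calc (n : ℝ) ^ (4 / 5 : ℝ) ≤ (n : ℝ) ^ (1 : ℝ) :=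
          Real.rpow_le_rpow_of_exponent_le hn1 (by norm_num)
      _ = n := Real.rpow_one _
  have h5 : (n : ℝ) ≤ (2 * a : ℝ) ^ (5 / 4 : ℝ) := by
    calc (n : ℝ) = ((n : ℝ) ^ (4 / 5 : ℝ)) ^ (5 / 4 : ℝ) := by
          rw [← Real.rpow_mul hn0]
          norm_num
      _ ≤ (2 * a : ℝ) ^ (5 / 4 : ℝ) := Real.rpow_le_rpow hx0 h3 (by norm_num)
  have h6 : (n : ℝ) ^ 2 ≤ (a : ℝ) ^ (2501 / 1000 : ℝ) := by
    calc (n : ℝ) ^ 2 ≤ ((2 * a : ℝ) ^ (5 / 4 : ℝ)) ^ 2 := by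
          exact pow_le_pow_left₀ hn0 h5 2
      _ = (2 * a : ℝ) ^ (5 / 2 : ℝ) := by
          rw [← Real.rpow_natCast, ← Real.rpow_mul (by positivity)]
          norm_num
      _ = (2 : ℝ) ^ (5 / 2 : ℝ) * (a : ℝ) ^ (5 / 2 : ℝ) := by
          rw [Real.mul_rpow (by norm_num) ha0.le]
      _ ≤ (a : ℝ) ^ (1 / 1000 : ℝ) * (a : ℝ) ^ (5 / 2 : ℝ) :=
          mul_le_mul_of_nonneg_right hp (by positivity)
      _ = (a : ℝ) ^ (2501 / 1000 : ℝ) := by
          rw [← Real.rpow_add ha0]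
          norm_num
  have h7 : (n : ℝ) ≤ (a : ℝ) ^ 2 := by
    have h8 : (a : ℝ) ^ (2501 / 1000 : ℝ) ≤ (a : ℝ) ^ (4 : ℝ) :=
      Real.rpow_le_rpow_of_exponent_le (by linarith) (by norm_num)
    have h9 : (a : ℝ) ^ (4 : ℝ) = ((a : ℝ) ^ 2) ^ 2 := by
      rw [← pow_mul]
      exact_mod_cast Real.rpow_natCast (a : ℝ) 4
    rw [h9] at h8
    exact (pow_le_pow_iff_left₀ hn0 (by positivity) two_ne_zero).1 (h6.trans h8)
  refine ⟨by exact_mod_cast h1.trans h4, by exact_mod_cast h7, h6, h3⟩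

private theorem vk_le {n k : ℕ} (hk : k ≤ n) : vk n k ≤ n * n := by
  unfold vk
  obtain ⟨d, rfl⟩ := Nat.exists_eq_add_of_le hk
  have e : k + d - k = d := by omega
  rw [e]
  nlinarith [Nat.zero_le (k * d)]

/-- Module FNA. -/
theorem hFNA (hF : StFSA) (hC : StCQA) (hA : StADA) (hS : StPSA) (hP : StPTA) (hR : StRTA) :
    StFNA := by
  classical
  obtain ⟨u, j0, hu, hj0, hj0u, η, c, hη, hc, a₀, hCQ⟩ := hC 19 90 (86 / 100)
    (by norm_num) (by norm_num) (by norm_num) (by norm_num) hF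
  obtain ⟨C, hC0, hPS⟩ := hS
  have hur : (0 : ℝ) < u := by exact_mod_cast (by omega : 0 < u)
  obtain ⟨ω, hω⟩ : ∃ ω : ℝ, ω = 1 / (100 * (u : ℝ)) := ⟨_, rfl⟩
  rw [← hω] at hCQ
  have hωp : 0 < ω := by rw [hω]; positivity
  obtain ⟨θ, hθ⟩ : ∃ θ : ℝ, θ = (j0 : ℝ) * ω := ⟨_, rfl⟩
  rw [← hθ] at hCQ
  have h11 : ((19 * u : ℕ) : ℝ) * ω = 19 / 100 := by
    rw [hω]
    push_cast
    field_simp
  -- the dimension in all boxes
  have hADall : ∃ a₁ : ℕ, ∀ a n : ℕ, a₁ ≤ a → 1 ≤ n → n ≤ a ^ 2 →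
      ∀ i ∈ Ico j0 (90 * u), Gb a ω (gn n) i ≤ gm i + η := by
    have hex : ∀ i : ℕ, ∃ b : ℕ, ∀ a n : ℕ, b ≤ a → 1 ≤ n → n ≤ a ^ 2 → i ∈ Ico j0 (90 * u) →
        Gb a ω (gn n) i ≤ gm i + η := by
      intro i
      by_cases hi : 1 ≤ i
      · obtain ⟨b, hb⟩ := hA u i η hu hi hη
        refine ⟨b, fun a n h1 h2 h3 _ => ?_⟩
        rw [hω]
        exact hb a n h1 h2 h3
      · refine ⟨0, fun a n _ _ _ h4 => ?_⟩
        rw [Finset.mem_Ico] at h4
        omega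
    choose b hb using hex
    refine ⟨(Ico j0 (90 * u)).sup b, fun a n h1 h2 h3 i hi => ?_⟩
    exact hb i a n ((Finset.le_sup hi).trans h1) h2 h3 hi
  obtain ⟨a₁, ha₁⟩ := hADall
  obtain ⟨a₂, ha₂⟩ := eventually_atTop.1 ((ev_log (div_pos hc (mul_pos two_pos hC0))).and ev_pow)
  obtain ⟨n₁, hn₁⟩ := eventually_atTop.1 (ev_floor (max (max a₀ a₁) (max a₂ 60)))
  refine ⟨c / 4, by positivity, max n₁ 2, ?_⟩
  intro n hn
  have hn2 : 2 ≤ n := (le_max_right _ _).trans hn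
  have hA0 := hn₁ n ((le_max_left _ _).trans hn)
  obtain ⟨a, hfl⟩ : ∃ a : ℕ, a = ⌊(n : ℝ) ^ (4 / 5 : ℝ)⌋₊ := ⟨_, rfl⟩
  rw [← hfl] at hA0
  have hb0 : a₀ ≤ a := ((le_max_left _ _).trans (le_max_left _ _)).trans hA0
  have hb1 : a₁ ≤ a := ((le_max_right _ _).trans (le_max_left _ _)).trans hA0
  have hb2 : a₂ ≤ a := ((le_max_left _ _).trans (le_max_right _ _)).trans hA0
  have ha60 : 60 ≤ a := ((le_max_right _ _).trans (le_max_right _ _)).trans hA0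
  obtain ⟨hlog, hpw⟩ := ha₂ a hb2
  obtain ⟨han, hna, hn2501, hn45⟩ := sizes (a := a) (n := n) (by omega) (by omega) hfl hpw
  have hsum := hCQ a n hb0 han (ha₁ a n hb1 (by omega) hna)
  have hbad := hPS a n ha60 han hna
  have har : (60 : ℝ) ≤ a := by exact_mod_cast ha60
  have hap : (0 : ℝ) < a := by linarith
  have ha1r : (1 : ℝ) < a := by linarith
  have hlogp : 0 < Real.log a := Real.log_pos ha1r
  have hanr : (a : ℝ) ≤ n := by exact_mod_cast han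
  set f : ℕ → ℝ := fun j => qk a θ n j * idq a ω j0 (19 * u) (vk n (kj n j)) *
      (1 - ∑ i ∈ Ico (19 * u) (90 * u), 86 / 100 * (1 - (i : ℝ) / (((90 : ℕ) : ℝ) * u)) *
        (ejq a ω i (vk n (kj n j)) : ℝ)) with hf
  set Bad : Finset ℕ := (Icc 1 (a / 60)).filter (fun j => ∃ p : ℕ, p.Prime ∧
    (a : ℝ) ^ (19 / 100 : ℝ) ≤ (p : ℝ) ∧ (p : ℝ) ≤ (a : ℝ) ^ (99 / 100 : ℝ) ∧
    p ^ 2 ∣ vk n (kj n j)) with hBad
  set S : Finset ℕ := (Icc 1 (a / 60)).filter (fun j => 0 < f j) with hSdef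
  have hsumnn : ∀ j : ℕ, 0 ≤ ∑ i ∈ Ico (19 * u) (90 * u),
      86 / 100 * (1 - (i : ℝ) / (((90 : ℕ) : ℝ) * u)) * (ejq a ω i (vk n (kj n j)) : ℝ) := by
    intro j
    apply Finset.sum_nonneg
    intro i hi
    rw [Finset.mem_Ico] at hi
    have h1 : (i : ℝ) ≤ ((90 : ℕ) : ℝ) * u := by exact_mod_cast hi.2.le
    have h2 : 0 ≤ 1 - (i : ℝ) / (((90 : ℕ) : ℝ) * u) := by
      rw [sub_nonneg, div_le_one (by positivity)]
      exact h1
    positivity
  have hf1 : ∀ j, f j ≤ 1 := by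
    intro j
    have h2 := hsumnn j
    simp only [hf]
    unfold qk idq
    split_ifs <;> simp only [zero_mul, mul_zero, one_mul, mul_one, zero_le_one] <;> linarith
  have hcount : ∑ j ∈ Icc 1 (a / 60), f j ≤ (S.card : ℝ) := by
    calc ∑ j ∈ Icc 1 (a / 60), f j
        ≤ ∑ j ∈ Icc 1 (a / 60), (if 0 < f j then (1 : ℝ) else 0) := by
          apply Finset.sum_le_sum
          intro j _
          split_ifs with h
          · exact hf1 j
          · exact not_lt.1 h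
      _ = (S.card : ℝ) := by
          rw [← Finset.sum_filter, Finset.sum_const, nsmul_eq_mul, mul_one]
  -- properties of the members
  have hmem : ∀ j ∈ S \ Bad, kj n j ∈ ks n := by
    intro j hj
    rw [Finset.mem_sdiff, hSdef, hBad, Finset.mem_filter, Finset.mem_filter] at hj
    obtain ⟨⟨hJ, hpos⟩, hnb⟩ := hj
    have hnb' : ∀ p : ℕ, p.Prime → (a : ℝ) ^ (19 / 100 : ℝ) ≤ (p : ℝ) →
        (p : ℝ) ≤ (a : ℝ) ^ (99 / 100 : ℝ) → ¬ p ^ 2 ∣ vk n (kj n j) :=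
      fun p h1 h2 h3 h4 => hnb ⟨hJ, p, h1, h2, h3, h4⟩
    rw [Finset.mem_Icc] at hJ
    obtain ⟨hj1, hjK⟩ := hJ
    obtain ⟨hk1, hk2⟩ := kj_le n j a ha60 hjK
    have hkn : kj n j ≤ n := hk2.trans han
    have hq : qk a θ n j = 1 := by
      by_contra hcon
      have : qk a θ n j = 0 := by
        unfold qk at hcon ⊢
        split_ifs at hcon ⊢ with h
        · exact absurd rfl hcon
        · rfl
      simp only [hf, this, zero_mul, lt_irrefl] at hpos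
    have hi : idq a ω j0 (19 * u) (vk n (kj n j)) = 1 := by
      by_contra hcon
      have : idq a ω j0 (19 * u) (vk n (kj n j)) = 0 := by
        unfold idq at hcon ⊢
        split_ifs at hcon ⊢ with h
        · rfl
        · exact absurd rfl hcon
      simp only [hf, this, mul_zero, zero_mul, lt_irrefl] at hpos
    have hs' : ∑ i ∈ Ico (19 * u) (90 * u), 86 / 100 * (1 - (i : ℝ) / (90 * u)) *
        (ejq a (1 / (100 * u)) i (vk n (kj n j)) : ℝ) < 1 := by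
      simp only [hf, hq, hi, one_mul, sub_pos, Nat.cast_ofNat] at hpos
      rw [← hω]
      exact hpos
    have hq' : ∀ p ∈ Qs a θ, ¬ (p : ℤ) ∣ gk n (kj n j) := by
      by_contra hcon
      unfold qk at hq
      rw [if_neg hcon] at hq
      norm_num at hq
    have hi' : ¬ ∃ p ∈ Pq a ω j0 (19 * u), p ∣ vk n (kj n j) := by
      intro hcon
      unfold idq at hi
      rw [if_pos hcon] at hi
      norm_num at hi
    have hbig : ∀ p : ℕ, p.Prime → p ∣ vk n (kj n j) → (a : ℝ) ^ θ ≤ (p : ℝ) := by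
      intro p hp hd
      by_contra hcon
      push Not at hcon
      by_cases h7 : 7 ≤ p
      · apply hq' p _ ((dvd_vk n (kj n j) p hkn).1 hd)
        unfold Qs
        rw [Finset.mem_filter, Finset.mem_Icc]
        exact ⟨⟨h7, Nat.le_floor hcon.le⟩, hp, hcon⟩
      · have h5 : p ≤ 5 := by
          by_contra h6
          have h66 : p = 6 := by omega
          rw [h66] at hp
          exact absurd hp (by norm_num)
        exact (hR n p hp).2.2.2.2 h5 j ((dvd_vk n (kj n j) p hkn).1 hd)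
    have hbig2 : ∀ p : ℕ, p.Prime → p ∣ vk n (kj n j) → (a : ℝ) ^ (19 / 100 : ℝ) ≤ (p : ℝ) := by
      intro p hp hd
      by_contra hcon
      push Not at hcon
      have hb1 := hbig p hp hd
      rw [hθ] at hb1
      rw [← h11] at hcon
      obtain ⟨i, hi1, hi2, hi3, hi4⟩ := box_FNA (a := a) (p := p) (j0 := j0) (ω := ω) (19 * u)
        hj0u hb1 hcon
      apply hi'
      refine ⟨p, ?_, hd⟩
      simp only [Pq, Finset.mem_biUnion, Finset.mem_Ico]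
      refine ⟨i, ⟨hi1, hi2⟩, ?_⟩
      unfold bq
      rw [Finset.mem_filter, Finset.mem_range, Nat.lt_ceil]
      exact ⟨hi4, hp, hi3⟩
    have hv1 : 1 ≤ vk n (kj n j) := by
      unfold vk
      have : 1 ≤ (kj n j) ^ 2 := Nat.one_le_pow _ _ hk1
      omega
    have hvr : ((vk n (kj n j) : ℕ) : ℝ) ≤ (a : ℝ) ^ (2501 / 1000 : ℝ) := by
      have h1 : vk n (kj n j) ≤ n * n := vk_le hkn
      have h2 : ((vk n (kj n j) : ℕ) : ℝ) ≤ n * n := by exact_mod_cast h1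
      refine h2.trans ?_
      rw [← pow_two]
      exact hn2501
    have hP5 := hP u a (vk n (kj n j)) hu (by omega) hv1 hvr hbig2 (by
      intro p hp hle hd
      have hd' : p ∣ vk n (kj n j) := (dvd_pow_self p (by norm_num)).trans hd
      exact hnb' p hp (hbig2 p hp hd') hle hd) hs'
    unfold ks
    rw [Finset.mem_filter, Finset.mem_Icc, ← hfl]
    exact ⟨⟨hk1, hk2⟩, hP5⟩
  have hcard : (S \ Bad).card ≤ (ks n).card := by
    apply Finset.card_le_card_of_injOn (fun j => kj n j)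
    · intro j hj
      exact hmem j hj
    · intro j _ j' _ he
      simp only at he
      unfold kj at he
      omega
  have hcard2 : S.card ≤ (ks n).card + Bad.card := by
    have h1 := Finset.le_card_sdiff Bad S
    omega
  have hcard' : (S.card : ℝ) ≤ ((ks n).card : ℝ) + (Bad.card : ℝ) := by exact_mod_cast hcard2
  have hlow : C * (a : ℝ) ^ (995 / 1000 : ℝ) ≤ c / 2 * a / Real.log a ^ 3 := by
    rw [le_div_iff₀ (by positivity)]
    calc C * (a : ℝ) ^ (995 / 1000 : ℝ) * Real.log a ^ 3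
        ≤ C * (a : ℝ) ^ (995 / 1000 : ℝ) * (c / (2 * C) * (a : ℝ) ^ (5 / 1000 : ℝ)) :=
          mul_le_mul_of_nonneg_left hlog (by positivity)
      _ = c / 2 * ((a : ℝ) ^ (995 / 1000 : ℝ) * (a : ℝ) ^ (5 / 1000 : ℝ)) := by
          field_simp
      _ = c / 2 * a := by
          rw [← Real.rpow_add hap]
          norm_num
  have hsum' : c * a / Real.log a ^ 3 ≤ ∑ j ∈ Icc 1 (a / 60), f j := hsum
  have hhalf : c * a / Real.log a ^ 3 = c / 2 * a / Real.log a ^ 3 + c / 2 * a / Real.log a ^ 3 := by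
    ring
  have hmain : c / 2 * a / Real.log a ^ 3 ≤ ((ks n).card : ℝ) := by
    linarith [hbad]
  refine le_trans ?_ hmain
  have hlogle : Real.log a ≤ Real.log n := Real.log_le_log hap hanr
  have hpow : Real.log a ^ 3 ≤ Real.log n ^ 3 := pow_le_pow_left₀ hlogp.le hlogle 3
  have hnum : c / 4 * (n : ℝ) ^ (4 / 5 : ℝ) ≤ c / 2 * a := by
    have := mul_le_mul_of_nonneg_left hn45 (by positivity : (0 : ℝ) ≤ c / 4)
    linarith
  exact div_le_div₀ (by positivity) hnum (by positivity) hpow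

end Pool.Agent.Helper55.PN
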